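import Pool.Agent.J6H50.RF.Stm

/-!
# RF-17: construction of the proofs
-/

set_option autoImplicit false
set_option maxHeartbeats 400000

namespace Pool.Agent.J6H81.RF17

open Pool.Agent.J6H50.RF Pool.Agent.NPC

theorem isProof_mono {T T' : Set Fm} (h : T ⊆ T') : ∀ P : List Fm, IsProof T P → IsProof T' P := by
  intro P
  induction P with
  | nil => intro _; trivial
  | cons φ P ih =>
    rintro ⟨h1, h2⟩
    refine ⟨ih h1, ?_⟩
    rcases h2 with h2 | h2 | h2 | h2
    · exact Or.inl (h h2)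
    · exact Or.inr (Or.inl h2)
    · exact Or.inr (Or.inr (Or.inl h2))
    · exact Or.inr (Or.inr (Or.inr h2))

theorem isProof_append {T : Set Fm} (Q : List Fm) (hQ : IsProof T Q) :
    ∀ P : List Fm, IsProof T P → IsProof T (P ++ Q) := by
  intro P
  induction P with
  | nil => intro _; exact hQ
  | cons φ P ih =>
    rintro ⟨h1, h2⟩
    refine ⟨ih h1, ?_⟩
    rcases h2 with h2 | h2 | ⟨ψ, h2, h3⟩ | ⟨i, ψ, h2, h3⟩
    · exact Or.inl h2
    · exact Or.inr (Or.inl h2)
    · exact Or.inr (Or.inr (Or.inl ⟨ψ, List.mem_append_left _ h2, List.mem_append_left _ h3⟩))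
    · exact Or.inr (Or.inr (Or.inr ⟨i, ψ, List.mem_append_left _ h2, h3⟩))

theorem upoly_pEv {α : Type} [TEnc α] {x : α → ℕ} (hx : UPoly x) :
    ∀ p : List ℕ, UPoly (fun a => pEv p (x a)) := by
  intro p
  induction p with
  | nil => exact UPoly.const 0
  | cons c p ih => exact UPoly.add (UPoly.const c) (UPoly.mul hx ih)

theorem poly_imp {α : Type} [TEnc α] {f g : α → Fm} (hf : Poly f) (hg : Poly g) :
    Poly (fun a => Fm.imp (f a) (g a)) := by
  have h : Poly (fun a => ((3 : ℕ), toT (f a), toT (g a))) :=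
    Poly.pair (NPC.Poly.const 3) (Poly.pair hf.toT' hg.toT')
  exact Poly.of_toT h.toT'

theorem mem_of_head? {P : List Fm} {φ : Fm} (h : P.head? = some φ) : φ ∈ P :=
  List.mem_of_mem_head? h

/-- the proof -/
def GG (μ : Fm) (P : List Fm) (w : W) : List Fm :=
  RFN μ w.1 w.2.2.2.2.1.length ::
    Fm.imp (hyp μ w.2.1 w.1 w.2.2.1 w.2.2.2.1) (RFN μ w.1 w.2.2.2.2.1.length) ::
    body μ w :: pad w :: Ax μ w :: P

theorem isProof_cons {T : Set Fm} {P : List Fm} {φ : Fm} (h : IsProof T P)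
    (h' : φ ∈ T ∨ Log φ ∨ (∃ ψ ∈ P, Fm.imp ψ φ ∈ P)) : IsProof T (φ :: P) := by
  refine ⟨h, ?_⟩
  rcases h' with h' | h' | h'
  · exact Or.inl h'
  · exact Or.inr (Or.inl h')
  · exact Or.inr (Or.inr (Or.inl h'))

theorem Ax_eq (μ : Fm) (w : W) : Ax μ w = Fm.imp (pad w) (body μ w) := rfl

theorem body_eq (μ : Fm) (w : W) : body μ w = Fm.imp (ind w.2.1 w.1)
    (Fm.imp (hyp μ w.2.1 w.1 w.2.2.1 w.2.2.2.1) (RFN μ w.1 w.2.2.2.2.1.length)) := rfl

theorem pad_log (w : W) : Log (pad w) := by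
  unfold pad
  exact Log.refl _

theorem proofOf_GG {T : Set Fm} (μ : Fm) (w : W) (P : List Fm) (hP : IsProof T P)
    (h0 : ind w.2.1 w.1 ∈ P) (h1 : hyp μ w.2.1 w.1 w.2.2.1 w.2.2.2.1 ∈ P) (hA : Ax μ w ∈ T) :
    ProofOf T (GG μ P w) (RFN μ w.1 w.2.2.2.2.1.length) := by
  have q1 : IsProof T (Ax μ w :: P) := isProof_cons hP (Or.inl hA)
  have q2 : IsProof T (pad w :: Ax μ w :: P) := isProof_cons q1 (Or.inr (Or.inl (pad_log w)))
  have q3 : IsProof T (body μ w :: pad w :: Ax μ w :: P) := by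
    refine isProof_cons q2 (Or.inr (Or.inr ⟨pad w, List.mem_cons_self, ?_⟩))
    rw [← Ax_eq]
    exact List.mem_cons_of_mem _ List.mem_cons_self
  have q4 : IsProof T (Fm.imp (hyp μ w.2.1 w.1 w.2.2.1 w.2.2.2.1)
      (RFN μ w.1 w.2.2.2.2.1.length) :: body μ w :: pad w :: Ax μ w :: P) := by
    refine isProof_cons q3 (Or.inr (Or.inr ⟨ind w.2.1 w.1, ?_, ?_⟩))
    · exact List.mem_cons_of_mem _ (List.mem_cons_of_mem _ (List.mem_cons_of_mem _ h0))
    · rw [← body_eq]
      exact List.mem_cons_self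
  refine ⟨isProof_cons q4 (Or.inr (Or.inr ⟨hyp μ w.2.1 w.1 w.2.2.1 w.2.2.2.1, ?_,
    List.mem_cons_self⟩)), rfl⟩
  exact List.mem_cons_of_mem _ (List.mem_cons_of_mem _ (List.mem_cons_of_mem _
    (List.mem_cons_of_mem _ h1)))

/-- the length of the witness, in unary -/
def tt (p : List ℕ) (n : List Unit) : List Unit := List.replicate (pEv p (4 * n.length + 9)) ()

theorem length_tt (p : List ℕ) (n : List Unit) : (tt p n).length = pEv p (4 * n.length + 9) :=
  List.length_replicate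

theorem poly_tt (p : List ℕ) : Poly (tt p) :=
  upoly_pEv (UPoly.add (UPoly.mul (UPoly.const 4) (UPoly.length Poly.id)) (UPoly.const 9)) p

/-- the data of the axiom -/
def ww (Prov : Fm) (j e : ℕ) (p : List ℕ) (g : List Unit → List Bool) (n : List Unit) : W :=
  (Prov, j, e, p, n, tt p n, g n)

theorem poly_ww (Prov : Fm) (j e : ℕ) (p : List ℕ) {g : List Unit → List Bool} (hg : Poly g) :
    Poly (ww Prov j e p g) :=
  Poly.pair (NPC.Poly.const Prov) (Poly.pair (NPC.Poly.const j) (Poly.pair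
    (NPC.Poly.const e) (Poly.pair (NPC.Poly.const p) (Poly.pair Poly.id
      (Poly.pair (poly_tt p) hg)))))

theorem poly_GG (μ : Fm) (P : List Fm) (Prov : Fm) (j e : ℕ) (p : List ℕ)
    {g : List Unit → List Bool} (hg : Poly g)
    (hAx : Poly (fun w : W => Ax μ w)) (hbody : Poly (fun w : W => body μ w))
    (hpad : Poly (fun w : W => pad w))
    (hRFN : Poly (fun a : Fm × List Unit => RFN μ a.1 a.2.length)) :
    Poly (fun n : List Unit => GG μ P (ww Prov j e p g n)) := by
  have hw := poly_ww Prov j e p hg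
  have hR : Poly (fun n : List Unit => RFN μ Prov n.length) :=
    Poly.comp (g := fun a : Fm × List Unit => RFN μ a.1 a.2.length)
      (f := fun n : List Unit => (Prov, n)) hRFN (Poly.pair (NPC.Poly.const Prov) Poly.id)
  have h1 : Poly (fun n : List Unit => Fm.imp (hyp μ j Prov e p) (RFN μ Prov n.length)) :=
    poly_imp (NPC.Poly.const _) hR
  have h2 : Poly (fun n : List Unit => body μ (ww Prov j e p g n)) := Poly.comp hbody hw
  have h3 : Poly (fun n : List Unit => pad (ww Prov j e p g n)) := Poly.comp hpad hw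
  have h4 : Poly (fun n : List Unit => Ax μ (ww Prov j e p g n)) := Poly.comp hAx hw
  exact Poly.cons hR (Poly.cons h1 (Poly.cons h2 (Poly.cons h3 (Poly.cons h4
    (NPC.Poly.const P)))))

/-- **RF-17** -/
theorem m17 : S_con := by
  intro hpax _ μ C hC Prov j e p h0 h1 hcond
  obtain ⟨P0, hP0, hh0⟩ := h0
  obtain ⟨P1, hP1, hh1⟩ := h1
  obtain ⟨-, hax⟩ := hpax
  obtain ⟨hAx, hbody, hpad, hRFN⟩ := hax μ
  obtain ⟨g, hg, hgC⟩ := hC.complete e (tt p) (poly_tt p) fun n =>
    hcond _ _ (le_of_eq (length_tt p n).symm)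
  have hG := poly_GG μ (P0 ++ P1) Prov j e p hg hAx hbody hpad hRFN
  have hF : Poly (fun s : List Bool =>
      GG μ (P0 ++ P1) (ww Prov j e p g (List.replicate s.length ()))) :=
    Poly.comp (g := fun n : List Unit => GG μ (P0 ++ P1) (ww Prov j e p g n))
      (f := fun s : List Bool => List.replicate s.length ()) hG (UPoly.length Poly.id)
  have hsub : S12 ⊆ S12 ∪ AS μ C := Set.subset_union_left
  have q0 : IsProof (S12 ∪ AS μ C) (P0 ++ P1) :=
    isProof_append P1 (isProof_mono hsub _ hP1) P0 (isProof_mono hsub _ hP0)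
  have key : ∀ m : List Unit, ProofOf (S12 ∪ AS μ C) (GG μ (P0 ++ P1) (ww Prov j e p g m))
      (RFN μ Prov m.length) := by
    intro m
    have hA : Ax μ (ww Prov j e p g m) ∈ AS μ C :=
      ⟨ww Prov j e p g m, le_of_eq (length_tt p m).symm, hgC m, rfl⟩
    exact proofOf_GG μ (ww Prov j e p g m) (P0 ++ P1) q0
      (List.mem_append_left _ (mem_of_head? hh0)) (List.mem_append_right _ (mem_of_head? hh1))
      (Set.mem_union_right _ hA)
  refine ⟨_, polyTime_bits hF, fun n => ⟨_, rfl, ?_⟩⟩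
  have h := key (List.replicate (List.replicate n true).length ())
  have hl : (List.replicate (List.replicate n true).length ()).length = n := by simp
  rw [hl] at h
  exact h

end Pool.Agent.J6H81.RF17
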