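import Pool.Agent.J6H36.RF.Stm

/-!
# RF-SEP: a finitely generated field over a perfect field is finite separable over a rational function field
-/

set_option autoImplicit false

universe u

namespace Pool.Agent.J6H81.RFSep

open Pool.Agent.J6H36.RF

theorem t_SEP : Pool.Agent.J6H36.RF.S_SEP.{u} := by
  intro P _ _ E _ _ Z
  have hess : Algebra.EssFiniteType P (IntermediateField.adjoin P (Z : Set E)) :=
    IntermediateField.essFiniteType_iff.2 ⟨Z, rfl⟩
  set L : IntermediateField P E := IntermediateField.adjoin P (Z : Set E) with hL
  obtain ⟨s, hs, hsep⟩ := exists_isTranscendenceBasis_and_isSeparable_of_perfectField P L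
  let t : Fin s.card → L := fun i => (s.equivFin.symm i : L)
  have hr1 : Set.range t = Set.range ((↑) : s → L) := by
    have : t = ((↑) : s → L) ∘ s.equivFin.symm := rfl
    rw [this, Set.range_comp, s.equivFin.symm.surjective.range_eq, Set.image_univ]
  have hr2 : Set.range t = (s : Set L) := by
    rw [hr1]; simp
  have ht : AlgebraicIndependent P t := hs.1.comp _ s.equivFin.symm.injective
  let F : IntermediateField P L := IntermediateField.adjoin P (s : Set L)
  have hsep' : Algebra.IsSeparable F L := hsep
  have : Algebra.EssFiniteType F L := Algebra.EssFiniteType.of_comp P F L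
  have hfin : FiniteDimensional F L := Algebra.finite_of_essFiniteType_of_isAlgebraic
  have htF : ∀ i, t i ∈ F := fun i => IntermediateField.subset_adjoin P _ (by
    rw [← hr2]; exact ⟨i, rfl⟩)
  let tF : Fin s.card → F := fun i => ⟨t i, htF i⟩
  have hcomp : (F.val : F → L) ∘ tF = t := rfl
  have hind : AlgebraicIndependent P tF := by
    rw [← AlgHom.algebraicIndependent_iff F.val F.val.injective, hcomp]
    exact ht
  have htop : IntermediateField.adjoin P (Set.range tF) = ⊤ := by
    apply IntermediateField.map_injective F.val
    rw [IntermediateField.adjoin_map, ← Set.range_comp, hcomp, hr2,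
      ← AlgHom.fieldRange_eq_map, IntermediateField.fieldRange_val]
  exact ⟨L, s.card, F, IntermediateField.subset_adjoin P _, ⟨tF, hind, htop⟩, hfin, hsep'⟩

end Pool.Agent.J6H81.RFSep
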